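import Pool.Agent.TH140.MR.Cube3Final
import Pool.Agent.TH140.MR.Cubic

/-!
# The maximal rank of complex tensors of format `n × n × n` is `n ^ 2 / 3 + O(n)`

`maxRank K n` is the maximal rank of the tensors of format `n 0 × ... × n (d - 1)` over `K`, where
the rank of `T` is the least number of decomposable tensors with sum `T`.  With `h = ⌈n / 3⌉` the
upper bound is `3 h ^ 2 + 9 h`, which is `n ^ 2 / 3 + 3 n` when `3` divides `n`.
-/

set_option autoImplicit false

namespace Pool.Agent.Results.MP_9e4661_ag.CubeRankLinearError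

open Pool.Agent.TH140.MR

theorem result (n : ℕ) :
    (n : ℝ) ^ 2 / 3 ≤ (maxRank ℂ (fun _ : Fin 3 => n) : ℝ) ∧
    maxRank ℂ (fun _ : Fin 3 => n) ≤ 3 * ((n + 2) / 3) ^ 2 + 9 * ((n + 2) / 3) :=
  ⟨cubic_lower ℂ n, maxRank_cube_complex n ((n + 2) / 3) (by omega)⟩

end Pool.Agent.Results.MP_9e4661_ag.CubeRankLinearError
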